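import Pool.Agent.N378.KH.Main2
import Pool.Agent.N378.KH.Meas
import Pool.Agent.N378.KH.Dis2
import Pool.Agent.N374.KHCOV
import Pool.Agent.N513.KHMEAS
import Pool.Agent.N42.KHMV
import Pool.Agent.N186.KHPIM
import Pool.Agent.N383.KHLIN
import Pool.Agent.N2.KHRANK
import Pool.Agent.N43.KHDIST
import Pool.Agent.N555.KHCUR
import Pool.Agent.N931.KHVOL
import Pool.Agent.N68.KHGP
import Pool.Agent.N727.KHCMAP
import Pool.Agent.N170.KHLAW

set_option autoImplicit false

/-!
# The smoothed number of k-hyperplanes in every dimension (MP_971713_co)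

`n` independent random points in the cube `[-1, 1]^d`, not necessarily identically distributed, with
laws of bounded density.  Almost surely they are in general position, and the expected number of the
`k`-hyperplanes (the `d`-element subsets which span a hyperplane with exactly `k` of the points in
one of the two open half-spaces) is `O(n^(d-1))`, for every `k`, with explicit constants:

* `2 (2^(d+1) D n)^(d-1)` if the laws are arbitrary laws of density at most `D` on the cube;
* `2 (4 D n)^(d-1)` if moreover the coordinates are independent, with densities at most `D` on the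
  interval `[-1, 1]`;
* `2 (2 n / s)^(d-1)` if arbitrary `n` points are perturbed by independent uniform noise from the
  cube `[-s, s]^d` (and the perturbed points remain in the unit cube).

In the worst case, the number of halving hyperplanes can be of order `n^(d-1) log n`, and it is only
known to be `o(n^d)`.

Proof.  Every hyperplane is the graph of an affine function with slopes in `[-1, 1]` over one of the
coordinate hyperplanes.  Choose one of the `d` points of the subset, `p`, and fix it and the points
outside of the subset.  For given slopes `a`, the heights of the other `d-1` points of the subset in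
the direction of the coordinate have to be equal to the height of `p`, and exactly `k` of the points
outside are lower than `p`.  By the change of variables formula for the map which sends the slopes to
the `d-1` coordinates (its Jacobian is at most `(d-1)! 2^(d-1)`) the probability of this is at most
`(d-1)! (2D)^(d-1)` times the volume of the set of the slopes for which exactly `k` of the points
outside are lower than `p`.  For given `d-1` points and almost all slopes there is at most one such
`p` among the remaining points, so the sum of the volumes over `p` is at most `2^(d-1)`.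
-/

namespace Pool.Agent.Results.MP_971713_co.SmoothedHyperplanes

open MeasureTheory Finset
open scoped ENNReal

/-- General position: no `d + 1` of the points `x i` of `ℝ^d` lie on a common hyperplane. -/
def GeneralPosition {n d : ℕ} (x : Fin n → Fin d → ℝ) : Prop :=
  ∀ T : Finset (Fin n), T.card = d + 1 → ¬ ∃ (u : Fin d → ℝ) (c : ℝ), u ≠ 0 ∧
    ∀ i ∈ T, ∑ j, u j * x i j = c

/-- `T` is a `k`-hyperplane of the points `x i`: it has `d` elements, and the points `x i`, `i ∈ T`,
lie on a hyperplane such that one of the two open half-spaces which it bounds contains exactly `k`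
of the points. -/
def IsKHyperplane {n d : ℕ} (x : Fin n → Fin d → ℝ) (k : ℕ) (T : Finset (Fin n)) : Prop :=
  T.card = d ∧ ∃ (u : Fin d → ℝ) (c : ℝ), u ≠ 0 ∧ (∀ i ∈ T, ∑ j, u j * x i j = c) ∧
    (Finset.univ.filter fun i => ∑ j, u j * x i j < c).card = k

/-- The number of the `k`-hyperplanes. -/
noncomputable def numKHyperplanes {n d : ℕ} (k : ℕ) (x : Fin n → Fin d → ℝ) : ℕ :=
  Nat.card {T : Finset (Fin n) // IsKHyperplane x k T}

/-- The uniform distribution on the interval `[q - s, q + s]`. -/
noncomputable def unif (s q : ℝ) : Measure ℝ :=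
  (ENNReal.ofReal (2 * s))⁻¹ • volume.restrict (Set.Icc (q - s) (q + s))

lemma unif_prob {s : ℝ} (hs : 0 < s) (q : ℝ) : IsProbabilityMeasure (unif s q) := by
  constructor
  rw [unif, Measure.smul_apply, Measure.restrict_apply_univ, Real.volume_Icc, smul_eq_mul,
    show q + s - (q - s) = 2 * s by ring]
  exact ENNReal.inv_mul_cancel (by simpa using hs) ENNReal.ofReal_ne_top

lemma unif_le {s q : ℝ} (hs : 0 < s) (hq : |q| + s ≤ 1) :
    unif s q ≤ ENNReal.ofReal (1 / (2 * s)) • volume.restrict (Set.Icc (-1 : ℝ) 1) := by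
  have h := abs_le.1 (show |q| ≤ 1 - s by linarith)
  rw [unif, one_div, ENNReal.ofReal_inv_of_pos (by linarith)]
  refine Measure.le_iff'.2 fun A => ?_
  rw [Measure.smul_apply, Measure.smul_apply]
  refine mul_le_mul' le_rfl ?_
  exact Measure.restrict_mono (Set.Icc_subset_Icc (by linarith) (by linarith)) le_rfl A

theorem result (d n k : ℕ) (hd : 1 ≤ d) :
    (Measurable fun x : Fin n → Fin d → ℝ => numKHyperplanes k x) ∧
    -- arbitrary laws of density at most `D` on the cube
    (∀ (D : ℝ) (μ : Fin n → Measure (Fin d → ℝ)), 0 < D → (∀ i, IsProbabilityMeasure (μ i)) →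
      (∀ i, μ i ≤ ENNReal.ofReal D • volume.restrict (Set.Icc (-1 : Fin d → ℝ) 1)) →
      (∀ᵐ x ∂Measure.pi μ, GeneralPosition x) ∧
      ∫⁻ x, (numKHyperplanes k x : ℝ≥0∞) ∂Measure.pi μ ≤
        ENNReal.ofReal (2 * (2 ^ (d + 1) * D * n) ^ (d - 1))) ∧
    -- independent coordinates with densities at most `D` on `[-1, 1]`
    (∀ (D : ℝ) (ν : Fin n → Fin d → Measure ℝ), 0 < D → (∀ i j, IsProbabilityMeasure (ν i j)) →
      (∀ i j, ν i j ≤ ENNReal.ofReal D • volume.restrict (Set.Icc (-1 : ℝ) 1)) →
      (∀ᵐ x ∂(Measure.pi fun i => Measure.pi (ν i)), GeneralPosition x) ∧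
      ∫⁻ x, (numKHyperplanes k x : ℝ≥0∞) ∂(Measure.pi fun i => Measure.pi (ν i)) ≤
        ENNReal.ofReal (2 * (4 * D * n) ^ (d - 1))) ∧
    -- arbitrary points with uniform noise
    ∀ (s : ℝ) (q : Fin n → Fin d → ℝ), 0 < s → (∀ i j, |q i j| + s ≤ 1) →
      (∀ᵐ x ∂(Measure.pi fun i => Measure.pi fun j => unif s (q i j)), GeneralPosition x) ∧
      ∫⁻ x, (numKHyperplanes k x : ℝ≥0∞) ∂(Measure.pi fun i => Measure.pi fun j =>
        unif s (q i j)) ≤ ENNReal.ofReal (2 * (2 * n / s) ^ (d - 1)) := by
  obtain ⟨m, rfl⟩ : ∃ m, d = m + 1 := ⟨d - 1, by omega⟩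
  have hA : ∀ (D : ℝ) (ν : Fin n → Fin (m + 1) → Measure ℝ), 0 < D →
      (∀ i j, IsProbabilityMeasure (ν i j)) →
      (∀ i j, ν i j ≤ ENNReal.ofReal D • volume.restrict (Set.Icc (-1 : ℝ) 1)) →
      (∀ᵐ x ∂(Measure.pi fun i => Measure.pi (ν i)), GeneralPosition x) ∧
      ∫⁻ x, (numKHyperplanes k x : ℝ≥0∞) ∂(Measure.pi fun i => Measure.pi (ν i)) ≤
        ENNReal.ofReal (2 * (4 * D * n) ^ (m + 1 - 1)) := by
    intro D ν hD hp hν
    have hL : N378.KH.Law D (fun e : Fin n × Fin (m + 1) => ν e.1 e.2) :=
      ⟨fun e => hp e.1 e.2, fun e => hν e.1 e.2⟩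
    refine ⟨N68.KH.t_GP n m (D ^ (m + 1)) (fun i => Measure.pi (ν i)) (by positivity)
      (N170.KH.t_LAW n m D ν hD hL), ?_⟩
    obtain ⟨G, hG1, hG2, hG3⟩ := N378.KH.main1 N374.KH.t_COV N513.KH.t_MEAS N42.KH.t_MV
      N186.KH.t_PIM N383.KH.t_LIN N2.KH.t_RANK N43.KH.t_DIST N727.KH.t_CMAP k D ν hD hL
    exact le_trans (lintegral_mono_ae hG2) hG3
  refine ⟨N378.KH.measurable_isKH k, ?_, hA, ?_⟩
  · intro D μ hD hp hμ
    have hL : N378.KH.Law2 D μ := ⟨hp, hμ⟩
    refine ⟨N68.KH.t_GP n m D μ hD hL, ?_⟩
    obtain ⟨G, hG1, hG2, hG3⟩ := N378.KH.main2 N374.KH.t_COV N513.KH.t_MEAS N42.KH.t_MV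
      N2.KH.t_RANK N555.KH.t_CUR N931.KH.t_VOL N378.KH.t_DIS2 k D μ hD hL
    exact le_trans (lintegral_mono_ae hG2) hG3
  · intro s q hs hq
    have h := hA (1 / (2 * s)) (fun i j => unif s (q i j)) (by positivity)
      (fun i j => unif_prob hs (q i j)) (fun i j => unif_le hs (hq i j))
    rw [show 4 * (1 / (2 * s)) * (n : ℝ) = 2 * n / s by field_simp; ring] at h
    exact h

end Pool.Agent.Results.MP_971713_co.SmoothedHyperplanes
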